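import Mathlib
import Pool.Agent.Lib.MP_d208ff_co.Defs
import Pool.Agent.Lib.MP_d208ff_co.Masks
import Pool.Agent.Lib.MP_d208ff_co.Example

set_option autoImplicit false

namespace Pool.Agent.Results.MP_d208ff_co.GenusCounterexample

open Pool.Agent.Lib.MP_d208ff_co Multigraph

/-- There is a connected gonality-tight multigraph (with 8 vertices and 15 edges) of first
gonality 5 whose genus is 8, and not `5.choose 2 = 10`. -/
theorem result : ∃ G : Multigraph (Fin 8), G.Connected ∧ G.GonalityTight ∧
    G.gon 1 = 5 ∧ G.gon 2 = 6 ∧ G.genus = 8 ∧ G.genus ≠ ((G.gon 1).choose 2 : ℕ) := by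
  refine ⟨exG, exConnected, ?_, gon1, gon2, exGenus, ?_⟩
  · unfold GonalityTight
    rw [gon1, gon2]
  · rw [gon1, exGenus]
    decide

end Pool.Agent.Results.MP_d208ff_co.GenusCounterexample
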