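import Mathlib
import Pool.Agent.Lib.MP_d208ff_co.Defs
import Pool.Agent.Lib.MP_d208ff_co.Masks
import Pool.Agent.Lib.MP_d208ff_co.Example

set_option autoImplicit false

namespace Pool.Agent.Results.MP_d208ff_co.SequenceCounterexample

open Pool.Agent.Lib.MP_d208ff_co Multigraph

/-- First half of the conjectured formula: with `k = gon_1` and `g = k.choose 2`,
`gon_r = g + r` for all `r ≥ g`. -/
def FormulaLarge {V : Type} [Fintype V] (G : Multigraph V) : Prop :=
  ∀ r : ℕ, (G.gon 1).choose 2 ≤ r → G.gon r = (G.gon 1).choose 2 + r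

/-- Second half of the conjectured formula: with `k = gon_1` and `g = k.choose 2`,
`gon_r = l (k + 1) - h` for all `1 ≤ r < g`, where `1 ≤ l ≤ k - 2`, `0 ≤ h ≤ l` and
`r = l (l + 3) / 2 - h`. -/
def FormulaSmall {V : Type} [Fintype V] (G : Multigraph V) : Prop :=
  ∀ r l h : ℕ, 1 ≤ r → r < (G.gon 1).choose 2 → 1 ≤ l → l + 2 ≤ G.gon 1 → h ≤ l →
    2 * (r + h) = l * (l + 3) → G.gon r + h = l * (G.gon 1 + 1)

/-- There is a connected gonality-tight multigraph on 8 vertices for which both halves of the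
conjectured formula fail: its gonality sequence is
`5, 6, 8, 11, 12, 13, 14` followed by `gon_r = r + 8` for all `r ≥ 8`. -/
theorem result : ∃ G : Multigraph (Fin 8), G.Connected ∧ G.GonalityTight ∧
    ¬ FormulaLarge G ∧ ¬ FormulaSmall G ∧
    G.gon 1 = 5 ∧ G.gon 2 = 6 ∧ G.gon 3 = 8 ∧ G.gon 4 = 11 ∧ G.gon 5 = 12 ∧ G.gon 6 = 13 ∧
    G.gon 7 = 14 ∧ ∀ r : ℕ, 8 ≤ r → G.gon r = r + 8 := by
  refine ⟨exG, exConnected, ?_, ?_, ?_, gon1, gon2, gon3, gon4, gon5, gon6, gon7, gon_large⟩
  · unfold GonalityTight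
    rw [gon1, gon2]
  · intro h
    have h1 := h 10
    rw [gon1] at h1
    have h2 := h1 (by decide)
    rw [gon_large 10 (by norm_num)] at h2
    exact absurd h2 (by decide)
  · intro h
    have h1 := h 3 2 2
    rw [gon1, gon3] at h1
    have h2 := h1 (by norm_num) (by decide) (by norm_num) (by norm_num) (by norm_num) (by norm_num)
    omega

end Pool.Agent.Results.MP_d208ff_co.SequenceCounterexample
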